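import Pool.Agent.H74.ST.Dual
set_option autoImplicit false
open Metric Set Filter Topology

namespace Pool.Agent.H74.ST

open Pool.Agent.W545.Orb

variable {n : ℕ}

theorem Nspec {S : Subgroup (Fin n → ℤˣ)} {R σ : ℝ} {k : ℕ} (hR : 0 < R) (hσ : σ * R = k)
    (ℓ : Fin n) : Module.finrank ℝ (steklovSpace n R (signGroup S) σ) = N S ℓ k :=
  (finrank_steklov hR hσ ℓ).2

theorem Nspec0 {S : Subgroup (Fin n → ℤˣ)} {R σ : ℝ} (hn : 0 < n) (hR : 0 < R)
    (h : ∀ k : ℕ, σ * R ≠ k) : Module.finrank ℝ (steklovSpace n R (signGroup S) σ) = 0 := by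
  rw [trivial_of_ne hn hR h]
  simp

/-- `S` has no nontrivial element with an entry `1`. -/
def NoFix (S : Subgroup (Fin n → ℤˣ)) : Prop := ∀ ε ∈ S, ε ≠ 1 → ∀ i, ε i ≠ 1

theorem const_of_noFix {S : Subgroup (Fin n → ℤˣ)} (h : NoFix S) {ε : Fin n → ℤˣ} (hε : ε ∈ S) :
    ∃ c : ℤˣ, ∀ i, ε i = c := by
  by_cases h1 : ε = 1
  · exact ⟨1, fun i => by rw [h1]; rfl⟩
  · refine ⟨-1, fun i => ?_⟩
    rcases Int.units_eq_one_or (ε i) with h3 | h3
    · exact absurd h3 (h ε hε h1 i)
    · exact h3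

theorem adm_deg {S : Subgroup (Fin n → ℤˣ)} (h : NoFix S) {α β : Fin n →₀ ℕ}
    (hd : α.degree = β.degree) (hα : α ∈ adm S) : β ∈ adm S := by
  intro ε hε
  obtain ⟨c, hc⟩ := const_of_noFix h hε
  have h1 : ∀ γ : Fin n →₀ ℕ, ∏ i, ε i ^ γ i = c ^ γ.degree := by
    intro γ
    rw [Finsupp.degree_eq_sum, ← Finset.prod_pow_eq_pow_sum]
    exact Finset.prod_congr rfl fun i _ => by rw [hc]
  rw [h1, ← hd, ← h1]
  exact hα ε hε

theorem deg_chi (A : Finset (Fin n)) : (chi A).degree = A.card := by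
  classical
  rw [Finsupp.degree_eq_sum]
  simp [chi_apply]

theorem single_eq_chi (i : Fin n) : Finsupp.single i 1 = chi {i} := by
  classical
  ext j
  rw [chi_apply, Finsupp.single_apply]
  simp [eq_comm]

theorem pair_eq_chi {i j : Fin n} (h : i ≠ j) :
    Finsupp.single i 1 + Finsupp.single j 1 = chi {i, j} := by
  classical
  ext k
  rw [chi_apply, Finsupp.add_apply, Finsupp.single_apply, Finsupp.single_apply]
  by_cases h1 : i = k
  · subst h1; simp [Ne.symm h]
  · by_cases h2 : j = k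
    · subst h2; simp [h1]
    · simp [h1, h2, Ne.symm h1, Ne.symm h2]

theorem T_bot_one (ℓ : Fin n) :
    T (adm (⊥ : Subgroup (Fin n → ℤˣ))) ℓ 1 = range (fun i : Fin n => Finsupp.single i 1) := by
  ext α
  constructor
  · rintro ⟨h1, -, -⟩
    obtain ⟨i, rfl⟩ := deg_one h1
    exact ⟨i, rfl⟩
  · rintro ⟨i, rfl⟩
    refine ⟨by simp, ?_, ?_⟩
    · intro ε hε
      rw [Subgroup.mem_bot] at hε
      subst hε
      simp
    · show (Finsupp.single i 1 : Fin n →₀ ℕ) ℓ ≤ 1
      rw [single_eq_chi]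
      exact chi_le _ _

theorem N_bot_one (ℓ : Fin n) : N (⊥ : Subgroup (Fin n → ℤˣ)) ℓ 1 = n := by
  rw [N, T_bot_one, Nat.card_coe_set_eq, ← Set.image_univ, Set.ncard_image_of_injective]
  · simp
  · intro i j h
    exact Finsupp.single_left_injective one_ne_zero h

theorem T_sub_bot (S : Subgroup (Fin n → ℤˣ)) (ℓ : Fin n) (k : ℕ) :
    T (adm S) ℓ k ⊆ T (adm (⊥ : Subgroup (Fin n → ℤˣ))) ℓ k := by
  rintro α ⟨h1, -, h3⟩
  refine ⟨h1, ?_, h3⟩
  intro ε hε
  rw [Subgroup.mem_bot] at hε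
  subst hε
  simp

theorem eq_bot_of_one {S : Subgroup (Fin n → ℤˣ)} {ℓ : Fin n} (h : n ≤ N S ℓ 1) : S = ⊥ := by
  have h1 : N S ℓ 1 ≤ N (⊥ : Subgroup (Fin n → ℤˣ)) ℓ 1 := by
    unfold N
    rw [Nat.card_coe_set_eq, Nat.card_coe_set_eq]
    exact Set.ncard_le_ncard (T_sub_bot S ℓ 1) (finite_T _ _ _)
  have h2 : N S ℓ 1 = N (⊥ : Subgroup (Fin n → ℤˣ)) ℓ 1 := by
    apply le_antisymm h1
    rw [N_bot_one]; exact h
  have h3 := T_eq (T_sub_bot S ℓ 1) h2
  rw [eq_bot_iff]
  intro ε hε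
  rw [Subgroup.mem_bot]
  funext i
  have h4 : (Finsupp.single i 1 : Fin n →₀ ℕ) ∈ T (adm S) ℓ 1 := by
    rw [h3, T_bot_one]; exact ⟨i, rfl⟩
  have h5 := h4.2.1
  rw [single_eq_chi] at h5
  have h6 := (chi_mem _ _).1 h5 ε hε
  simpa using h6

/-- The classification. -/
theorem classify {S S' : Subgroup (Fin n → ℤˣ)} {R R' : ℝ} (hn : 2 ≤ n) (hR : 0 < R) (hR' : 0 < R')
    (hiso : ∀ σ : ℝ, Module.finrank ℝ (steklovSpace n R (signGroup S) σ) =
      Module.finrank ℝ (steklovSpace n R' (signGroup S') σ))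
    (hs : ¬ NoFix S) (hs' : NoFix S') :
    S' = ⊥ ∧ R = 2 * R' ∧ ∃ i j ℓ : Fin n, i ≠ j ∧ i ≠ ℓ ∧ j ≠ ℓ ∧ S = S1 i j := by
  classical
  have hn0 : 0 < n := by omega
  set o : Fin n := ⟨0, hn0⟩ with ho
  obtain ⟨e, he, he1, a, hea⟩ : ∃ e ∈ S, e ≠ 1 ∧ ∃ a, e a = 1 := by
    simp only [NoFix] at hs
    push Not at hs
    exact hs
  -- comparison of multiplicities
  have H : ∀ (ℓ : Fin n) (k k' : ℕ), (k : ℝ) / R = k' / R' → N S ℓ k = N S' ℓ k' := by
    intro ℓ k k' hk
    rw [← Nspec hR (σ := (k : ℝ) / R) (by field_simp) ℓ, hiso, hk]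
    exact Nspec hR' (by field_simp) ℓ
  have m1 : ∃ m : ℕ, (2 : ℝ) / R * R' = m := by
    by_contra hcon
    push Not at hcon
    have h1 := Nspec0 (S := S') hn0 hR' hcon
    rw [← hiso, Nspec hR (k := 2) (by push_cast; field_simp) o] at h1
    exact N_two hn o h1
  have m2 : ∃ m : ℕ, (2 : ℝ) / R' * R = m := by
    by_contra hcon
    push Not at hcon
    have h1 := Nspec0 (S := S) hn0 hR hcon
    rw [hiso, Nspec hR' (k := 2) (by push_cast; field_simp) o] at h1
    exact N_two hn o h1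
  obtain ⟨m, hm⟩ := m1
  obtain ⟨m', hm'⟩ := m2
  have hmm : m * m' = 4 := by
    have : (m : ℝ) * m' = 4 := by
      rw [← hm, ← hm']; field_simp; norm_num
    exact_mod_cast this
  have hmR : 2 * R' = m * R := by
    rw [← hm]; field_simp
  have hmdvd : m ∣ 4 := ⟨m', hmm.symm⟩
  have hmle : m ≤ 4 := Nat.le_of_dvd (by norm_num) hmdvd
  have hcase : m = 1 ∨ m = 2 ∨ m = 4 := by
    interval_cases m <;> simp_all
  rcases hcase with rfl | rfl | rfl
  · -- `R = 2 R'`
    have hRR : R = 2 * R' := by push_cast at hmR; linarith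
    have H2 : ∀ (ℓ : Fin n) (k : ℕ), N S ℓ (2 * k) = N S' ℓ k := by
      intro ℓ k
      apply H
      rw [hRR]; push_cast; field_simp
    have Hodd : ∀ (ℓ : Fin n) (k : ℕ), Odd k → N S ℓ k = 0 := by
      intro ℓ k hk
      have h1 : ∀ j : ℕ, (k : ℝ) / R * R' ≠ j := by
        intro j hj
        rw [hRR] at hj
        have h2 : (k : ℝ) = 2 * j := by
          field_simp at hj
          linarith
        have h3 : k = 2 * j := by exact_mod_cast h2
        obtain ⟨r, hr⟩ := hk
        omega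
      have h4 := Nspec0 (S := S') hn0 hR' h1
      rw [← hiso, Nspec hR (k := k) (by field_simp) ℓ] at h4
      exact h4
    have hbot : S' = ⊥ := by
      have h1 : N S' o 1 ≠ 0 := by
        rw [← H2 o 1]; exact N_two hn o
      obtain ⟨α, hα⟩ := exists_of_N h1
      rw [eq_bot_iff]
      intro ε hε
      rw [Subgroup.mem_bot]
      funext i
      have h2 : chi {i} ∈ adm S' := by
        apply adm_deg hs' _ hα.2.1
        rw [hα.1, deg_chi]; simp
      have h3 := (chi_mem _ _).1 h2 ε hε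
      simpa using h3
    refine ⟨hbot, hRR, ?_⟩
    subst hbot
    -- a pair
    have hpair : ∃ i j : Fin n, i ≠ j ∧ chi {i, j} ∈ adm S := by
      by_contra hcon
      push Not at hcon
      have hsub : T (adm S) o 2 ⊆ (fun i : Fin n => (Finsupp.single i 2 : Fin n →₀ ℕ)) ''
          {i | i ≠ o} := by
        rintro α ⟨h1, h2, h3⟩
        obtain ⟨i, j, rfl⟩ := deg_two h1
        by_cases hij : i = j
        · subst hij
          have h4 : (Finsupp.single i 1 + Finsupp.single i 1 : Fin n →₀ ℕ) = Finsupp.single i 2 := by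
            rw [← Finsupp.single_add]
          rw [h4] at h3 ⊢
          refine ⟨i, ?_, rfl⟩
          intro hio
          rw [hio] at h3
          simp at h3
        · rw [pair_eq_chi hij] at h2
          exact absurd h2 (hcon i j hij)
      have h5 : N S o 2 ≤ n - 1 := by
        unfold N
        rw [Nat.card_coe_set_eq]
        refine (Set.ncard_le_ncard hsub (Set.toFinite _)).trans ?_
        refine (Set.ncard_image_le (Set.toFinite _)).trans ?_
        have h6 : {i : Fin n | i ≠ o} = ((Finset.univ.erase o : Finset (Fin n)) : Set (Fin n)) := by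
          ext i; simp
        rw [h6, Set.ncard_coe_finset, Finset.card_erase_of_mem (Finset.mem_univ _)]
        simp
      have h7 := H2 o 1
      rw [N_bot_one, mul_one] at h7
      omega
    obtain ⟨i, j, hij, hch⟩ := hpair
    have hSle : ∀ ε ∈ S, ε i = ε j := by
      intro ε hε
      have h1 := (chi_mem _ _).1 hch ε hε
      rw [Finset.prod_pair hij] at h1
      rcases Int.units_eq_one_or (ε i) with h2 | h2 <;> rcases Int.units_eq_one_or (ε j) with h3 | h3 <;>
        rw [h2, h3] at h1 ⊢ <;> simp at h1 ⊢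
    have hell : ∃ ℓ : Fin n, i ≠ ℓ ∧ j ≠ ℓ := by
      by_cases ha : a = i ∨ a = j
      · have h1 : e i = 1 ∧ e j = 1 := by
          rcases ha with rfl | rfl
          · exact ⟨hea, by rw [← hSle e he]; exact hea⟩
          · exact ⟨by rw [hSle e he]; exact hea, hea⟩
        obtain ⟨b, hb⟩ := Function.ne_iff.1 he1
        refine ⟨b, ?_, ?_⟩
        · rintro rfl; exact hb h1.1
        · rintro rfl; exact hb h1.2
      · push Not at ha
        exact ⟨a, Ne.symm ha.1, Ne.symm ha.2⟩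
    obtain ⟨ℓ, hiℓ, hjℓ⟩ := hell
    refine ⟨i, j, ℓ, hij, hiℓ, hjℓ, le_antisymm (fun ε hε => hSle ε hε) ?_⟩
    apply le_of_chi
    intro A hA
    have hAT : chi A ∈ T (adm S) ℓ A.card := ⟨deg_chi A, hA, chi_le A ℓ⟩
    have hsub : T (adm (S1 i j)) ℓ A.card ⊆ T (adm S) ℓ A.card := by
      rintro α ⟨h1, h2, h3⟩
      exact ⟨h1, fun ε hε => h2 ε (hSle ε hε), h3⟩
    have hev : ∃ k, A.card = 2 * k := by
      rcases Nat.even_or_odd A.card with h1 | h1
      · obtain ⟨k, hk⟩ := h1; exact ⟨k, by omega⟩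
      · exact absurd (Hodd ℓ _ h1) (N_pos hAT)
    obtain ⟨k, hk⟩ := hev
    have hcard : N (S1 i j) ℓ A.card = N S ℓ A.card := by
      rw [hk, H2]
      exact card_T_even hij hiℓ hjℓ k
    have := T_eq hsub hcard
    rw [← this] at hAT
    exact hAT.2.1
  · -- `R = R'`
    exfalso
    have hRR : R = R' := by push_cast at hmR; linarith
    have H2 : ∀ (ℓ : Fin n) (k : ℕ), N S ℓ k = N S' ℓ k := by
      intro ℓ k
      apply H
      rw [hRR]
    have hsub : ∀ (ℓ : Fin n) (k : ℕ), T (adm S) ℓ k ⊆ T (adm S') ℓ k := by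
      intro ℓ k α hα
      have h1 : N S' ℓ k ≠ 0 := by rw [← H2]; exact N_pos hα
      obtain ⟨β, hβ⟩ := exists_of_N h1
      exact ⟨hα.1, adm_deg hs' (by rw [hα.1, hβ.1]) hβ.2.1, hα.2.2⟩
    have hle : S ≤ S' := by
      apply le_of_chi
      intro A hA
      have hAT : chi A ∈ T (adm S') o A.card := ⟨deg_chi A, hA, chi_le A o⟩
      rw [← T_eq (hsub o A.card) (H2 o _)] at hAT
      exact hAT.2.1
    exact hs' e (hle he) he1 a hea
  · -- `R' = 2 R`
    exfalso
    have hRR : R' = 2 * R := by push_cast at hmR; linarith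
    have H2 : ∀ (ℓ : Fin n) (k : ℕ), N S ℓ k = N S' ℓ (2 * k) := by
      intro ℓ k
      apply H
      rw [hRR]; push_cast; field_simp
    have hge : n ≤ N S' o 2 := by
      obtain ⟨b, hb⟩ : ∃ b : Fin n, b ≠ o := by
        have : Nontrivial (Fin n) := Fin.nontrivial_iff_two_le.2 hn
        exact exists_ne o
      have hmem : ∀ i : Fin n, (Finsupp.single i 1 + Finsupp.single b 1 : Fin n →₀ ℕ) ∈
          T (adm S') o 2 := by
        intro i
        refine ⟨by rw [map_add]; simp, ?_, ?_⟩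
        · apply adm_deg hs' (α := Finsupp.single b 2) _ (two_mem S' b)
          rw [map_add]; simp
        · show (Finsupp.single i 1 + Finsupp.single b 1 : Fin n →₀ ℕ) o ≤ 1
          rw [Finsupp.add_apply, Finsupp.single_eq_of_ne (Ne.symm hb), add_zero, single_eq_chi]
          exact chi_le _ _
      have hfin : Finite (T (adm S') o 2) := finite_T _ _ _
      have := Nat.card_le_card_of_injective
        (fun i : Fin n => (⟨_, hmem i⟩ : T (adm S') o 2)) (by
          intro i j h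
          have h1 := congrArg Subtype.val h
          simp only [add_left_inj] at h1
          exact Finsupp.single_left_injective one_ne_zero h1)
      rw [Nat.card_eq_fintype_card, Fintype.card_fin] at this
      exact this
    have h1 : S = ⊥ := eq_bot_of_one (ℓ := o) (by rw [H2 o 1]; exact hge)
    rw [h1, Subgroup.mem_bot] at he
    exact he1 he

/-- The isospectral pair. -/
theorem pair {i0 i1 ℓ : Fin n} (h01 : i0 ≠ i1) (h0 : i0 ≠ ℓ) (h1 : i1 ≠ ℓ) {R : ℝ} (hR : 0 < R)
    (σ : ℝ) :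
    Module.Finite ℝ (steklovSpace n (2 * R) (signGroup (S1 i0 i1)) σ) ∧
    Module.Finite ℝ (steklovSpace n R ⊥ σ) ∧
    Module.finrank ℝ (steklovSpace n (2 * R) (signGroup (S1 i0 i1)) σ) =
      Module.finrank ℝ (steklovSpace n R ⊥ σ) := by
  have hn : 0 < n := Fin.pos ℓ
  have h2R : 0 < 2 * R := by linarith
  by_cases hk : ∃ k : ℕ, σ * (2 * R) = k
  · obtain ⟨k, hk⟩ := hk
    obtain ⟨a1, a2⟩ := finrank_steklov (S := S1 i0 i1) h2R hk ℓ
    rcases Nat.even_or_odd' k with ⟨j, rfl | rfl⟩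
    · have hk2 : σ * R = j := by
        push_cast at hk
        linarith
      obtain ⟨b1, b2⟩ := finrank_steklov (S := (⊥ : Subgroup (Fin n → ℤˣ))) hR hk2 ℓ
      rw [signGroup_bot] at b1 b2
      exact ⟨a1, b1, by rw [a2, b2, card_T_even h01 h0 h1]⟩
    · have hne : ∀ m : ℕ, σ * R ≠ m := by
        intro m hm
        push_cast at hk
        have h2 : (2 * j + 1 : ℝ) = 2 * m := by linarith
        have h3 : 2 * j + 1 = 2 * m := by exact_mod_cast h2
        omega
      have hbot := trivial_of_ne hn (S := (⊥ : Subgroup (Fin n → ℤˣ))) hR hne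
      rw [signGroup_bot] at hbot
      rw [hbot]
      refine ⟨a1, inferInstance, ?_⟩
      rw [a2, card_T_odd h01 h0 h1 ⟨j, rfl⟩]
      simp
  · push Not at hk
    have hne : ∀ m : ℕ, σ * R ≠ m := by
      intro m hm
      apply hk (2 * m)
      push_cast
      linarith
    have hbot := trivial_of_ne hn (S := (⊥ : Subgroup (Fin n → ℤˣ))) hR hne
    rw [signGroup_bot] at hbot
    rw [hbot, trivial_of_ne hn h2R hk]
    exact ⟨inferInstance, inferInstance, rfl⟩

end Pool.Agent.H74.ST
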