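import Pool.Graph.R_seed8.Results.MP_81485b_gt.BoundarySingUndetected
import Pool.Agent.H74.ST.Classify
set_option autoImplicit false
open Metric

namespace Pool.Agent.H74.ST

open Pool.Agent.Results.MP_81485b_gt.BoundarySingUndetected
open Pool.Agent.W545.Orb (signIso signIso_apply signGroup S1 steklovSpace)

variable {n : ℕ}

/-- Every element of the group of the orbifold ball changes the signs of some coordinates. -/
def SignChanges (O : OrbifoldBall n) : Prop :=
  ∀ γ ∈ O.Γ, ∃ ε : Fin n → ℤˣ, ∀ x i, γ x i = ((ε i : ℤ) : ℝ) * x i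

/-- The group of the orbifold ball consists of all sign changes with equal signs at the
coordinates `i` and `j`. -/
def EqualSigns (O : OrbifoldBall n) (i j : Fin n) : Prop :=
  ∀ γ : Equiv.Perm (E n), γ ∈ O.Γ ↔
    ∃ ε : Fin n → ℤˣ, ε i = ε j ∧ ∀ x k, γ x k = ((ε k : ℤ) : ℝ) * x k

/-- The orbifold ball has a singular point on its boundary. -/
def BoundarySingular (O : OrbifoldBall n) : Prop := ∃ x ∈ sphere (0 : E n) O.R, IsSingular O x

/-- sign vectors as isometries -/
noncomputable def signHom (n : ℕ) : (Fin n → ℤˣ) →* (E n ≃ₗᵢ[ℝ] E n) where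
  toFun := signIso
  map_one' := by
    ext x i
    rw [signIso_apply]
    simp
  map_mul' := by
    intro a b
    ext x i
    show signIso (a * b) x i = signIso a (signIso b x) i
    rw [signIso_apply, signIso_apply, signIso_apply]
    simp [mul_assoc]

/-- the sign vectors of an orbifold ball -/
noncomputable def sgn (O : OrbifoldBall n) : Subgroup (Fin n → ℤˣ) := (lin O).comap (signHom n)

theorem mem_sgn {O : OrbifoldBall n} {ε : Fin n → ℤˣ} :
    ε ∈ sgn O ↔ (signIso ε).toEquiv ∈ O.Γ := Iff.rfl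

theorem perm_eq {γ : Equiv.Perm (E n)} {ε : Fin n → ℤˣ}
    (h : ∀ x i, γ x i = ((ε i : ℤ) : ℝ) * x i) : (signIso ε).toEquiv = γ := by
  ext x i
  show signIso ε x i = γ x i
  rw [signIso_apply, h]

theorem lin_eq {O : OrbifoldBall n} (hO : SignChanges O) : lin O = signGroup (sgn O) := by
  ext L
  constructor
  · intro hL
    obtain ⟨ε, hε⟩ := hO _ hL
    refine ⟨ε, ?_, hε⟩
    rw [mem_sgn, perm_eq hε]
    exact hL
  · rintro ⟨ε, hε, h⟩
    show L.toEquiv ∈ O.Γ
    rw [← perm_eq (γ := L.toEquiv) h]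
    exact hε

theorem perm_one {ε : Fin n → ℤˣ} (h : (signIso ε).toEquiv = 1) : ε = 1 := by
  funext i
  have h1 := congrArg (fun e : Equiv.Perm (E n) => e (EuclideanSpace.single i 1) i) h
  have h2 : signIso ε (EuclideanSpace.single i 1) i = (EuclideanSpace.single i (1 : ℝ) : E n) i := h1
  rw [signIso_apply] at h2
  simp at h2
  rcases Int.units_eq_one_or (ε i) with h3 | h3
  · exact h3
  · rw [h3] at h2; norm_num at h2

theorem boundarySingular_iff {O : OrbifoldBall n} (hO : SignChanges O) :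
    BoundarySingular O ↔ ¬ NoFix (sgn O) := by
  constructor
  · rintro ⟨x, hx, γ, hγ, hne, hfix⟩ hno
    obtain ⟨ε, hε⟩ := hO γ hγ
    have hmem : ε ∈ sgn O := by rw [mem_sgn, perm_eq hε]; exact hγ
    have hε1 : ε ≠ 1 := by
      rintro rfl
      apply hne
      ext y i
      rw [hε]; simp
    have hx0 : x ≠ 0 := by
      rintro rfl
      rw [mem_sphere_zero_iff_norm, norm_zero] at hx
      exact O.pos.ne hx
    obtain ⟨i, hi⟩ : ∃ i, x i ≠ 0 := by
      by_contra hcon
      push Not at hcon
      apply hx0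
      ext i
      simpa using hcon i
    apply hno ε hmem hε1 i
    have h1 := hε x i
    rw [hfix] at h1
    rcases Int.units_eq_one_or (ε i) with h3 | h3
    · exact h3
    · rw [h3] at h1
      push_cast at h1
      exact absurd (by linarith) hi
  · intro h
    simp only [NoFix] at h
    push Not at h
    obtain ⟨ε, hε, hε1, a, ha⟩ := h
    refine ⟨EuclideanSpace.single a O.R, ?_, (signIso ε).toEquiv, hε, fun h => hε1 (perm_one h), ?_⟩
    · rw [mem_sphere_zero_iff_norm]
      simp [abs_of_pos O.pos]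
    · ext i
      show signIso ε (EuclideanSpace.single a O.R) i = _
      rw [signIso_apply]
      by_cases hi : i = a
      · subst hi; simp [ha]
      · simp [hi]

theorem sgn_of_equalSigns {O : OrbifoldBall n} {i j : Fin n} (h : EqualSigns O i j) :
    sgn O = S1 i j := by
  ext ε
  rw [mem_sgn, h]
  constructor
  · rintro ⟨δ, hδ, h1⟩
    have h2 : ε = δ := by
      funext k
      have h3 := h1 (EuclideanSpace.single k 1) k
      have h4 : signIso ε (EuclideanSpace.single k 1) k =
        ((δ k : ℤ) : ℝ) * (EuclideanSpace.single k (1 : ℝ) : E n) k := h3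
      rw [signIso_apply] at h4
      simp at h4
      exact Units.ext h4
    rw [h2]
    exact hδ
  · intro hε
    exact ⟨ε, hε, signIso_apply ε⟩

theorem signChanges_of_equalSigns {O : OrbifoldBall n} {i j : Fin n} (h : EqualSigns O i j) :
    SignChanges O := by
  intro γ hγ
  obtain ⟨ε, -, h1⟩ := (h γ).1 hγ
  exact ⟨ε, h1⟩

theorem sgn_bot {O : OrbifoldBall n} (h : O.Γ = ⊥) : sgn O = ⊥ := by
  rw [eq_bot_iff]
  intro ε hε
  rw [mem_sgn, h, Subgroup.mem_bot] at hε
  rw [Subgroup.mem_bot]
  exact perm_one hε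

theorem two_le_of_fix {S : Subgroup (Fin n → ℤˣ)} (h : ¬ NoFix S) : 2 ≤ n := by
  simp only [NoFix] at h
  push Not at h
  obtain ⟨ε, -, hε1, a, ha⟩ := h
  obtain ⟨b, hb⟩ := Function.ne_iff.1 hε1
  have hab : a.val ≠ b.val := by
    intro h1
    have h2 : a = b := Fin.ext h1
    rw [h2] at ha
    exact hb ha
  have := a.2
  have := b.2
  omega

theorem iso_iff {O O' : OrbifoldBall n} (hO : SignChanges O) (hO' : SignChanges O')
    (hs : BoundarySingular O) (hs' : ¬ BoundarySingular O') :
    Isospectral O O' ↔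
      (3 ≤ n ∧ O'.Γ = ⊥ ∧ O.R = 2 * O'.R ∧ ∃ i j : Fin n, i ≠ j ∧ EqualSigns O i j) := by
  rw [boundarySingular_iff hO] at hs
  rw [boundarySingular_iff hO', not_not] at hs'
  have hn : 2 ≤ n := two_le_of_fix hs
  constructor
  · intro h
    have h1 : ∀ σ : ℝ, Module.finrank ℝ (steklovSpace n O.R (signGroup (sgn O)) σ) =
        Module.finrank ℝ (steklovSpace n O'.R (signGroup (sgn O')) σ) := by
      intro σ
      have := (h σ).2.2
      rwa [eigenspace_eq, eigenspace_eq, lin_eq hO, lin_eq hO'] at this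
    obtain ⟨h2, h3, i, j, ℓ, hij, hiℓ, hjℓ, h4⟩ := classify hn O.pos O'.pos h1 hs hs'
    refine ⟨?_, ?_, h3, i, j, hij, ?_⟩
    · have := i.2; have := j.2; have := ℓ.2
      have h5 : i.val ≠ j.val := fun h => hij (Fin.ext h)
      have h6 : i.val ≠ ℓ.val := fun h => hiℓ (Fin.ext h)
      have h7 : j.val ≠ ℓ.val := fun h => hjℓ (Fin.ext h)
      omega
    · rw [eq_bot_iff]
      intro γ hγ
      obtain ⟨ε, hε⟩ := hO' γ hγ
      have hmem : ε ∈ sgn O' := by rw [mem_sgn, perm_eq hε]; exact hγ
      rw [h2, Subgroup.mem_bot] at hmem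
      subst hmem
      rw [Subgroup.mem_bot]
      ext y i
      rw [hε]; simp
    · intro γ
      constructor
      · intro hγ
        obtain ⟨ε, hε⟩ := hO γ hγ
        have hmem : ε ∈ sgn O := by rw [mem_sgn, perm_eq hε]; exact hγ
        rw [h4] at hmem
        exact ⟨ε, hmem, hε⟩
      · rintro ⟨ε, hε, h5⟩
        rw [← perm_eq h5, ← mem_sgn, h4]
        exact hε
  · rintro ⟨h3, h2, hRR, i, j, hij, h4⟩ σ
    obtain ⟨ℓ, hiℓ, hjℓ⟩ : ∃ ℓ : Fin n, i ≠ ℓ ∧ j ≠ ℓ := by
      by_contra hcon
      push Not at hcon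
      have h5 : (Finset.univ : Finset (Fin n)) ⊆ {i, j} := by
        intro k _
        by_cases hk : i = k
        · simp [hk]
        · simp [hcon k hk]
      have h6 := Finset.card_le_card h5
      rw [Finset.card_univ, Fintype.card_fin, Finset.card_pair hij] at h6
      omega
    rw [eigenspace_eq, eigenspace_eq, lin_eq hO, lin_eq hO', sgn_of_equalSigns h4, sgn_bot h2,
      Pool.Agent.W545.Orb.signGroup_bot, hRR]
    exact pair hij hiℓ hjℓ O'.pos σ

end Pool.Agent.H74.ST
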