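import Pool.Graph.R_seed8.W545.Orb.Final
set_option autoImplicit false
open Metric Set Filter Topology

namespace Pool.Agent.H74.ST

open Pool.Agent.W545.Orb

variable {n : ℕ}

/-- Duality for groups of sign vectors. -/
theorem mem_of_dual (S : Subgroup (Fin n → ℤˣ)) (e : Fin n → ℤˣ)
    (h : ∀ A : Finset (Fin n), (∀ ε ∈ S, ∏ i ∈ A, ε i = 1) → ∏ i ∈ A, e i = 1) : e ∈ S := by
  classical
  by_contra he
  have hfin : Fintype S := Fintype.ofFinite S
  have key : ∀ δ : Fin n → ℤˣ, ∑ A : Finset (Fin n), ∏ i ∈ A, ((δ i : ℤ)) =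
      ∏ i, (1 + (δ i : ℤ)) := by
    intro δ
    rw [Finset.prod_one_add, Finset.powerset_univ]
  have h1 : ∑ ε : S, ∑ A : Finset (Fin n), ∏ i ∈ A, (((ε : Fin n → ℤˣ) * e) i : ℤ) = 0 := by
    apply Finset.sum_eq_zero
    intro ε _
    rw [key]
    have hne : (ε : Fin n → ℤˣ) * e ≠ 1 := by
      intro h2
      apply he
      have : e = (ε : Fin n → ℤˣ)⁻¹ := by
        rw [eq_comm, inv_eq_iff_mul_eq_one]; exact h2
      rw [this]
      exact S.inv_mem ε.2
    obtain ⟨i, hi⟩ := Function.ne_iff.1 hne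
    apply Finset.prod_eq_zero (Finset.mem_univ i)
    rcases Int.units_eq_one_or (((ε : Fin n → ℤˣ) * e) i) with h3 | h3
    · exact absurd h3 hi
    · rw [h3]; norm_num
  rw [Finset.sum_comm] at h1
  have h2 : ∀ A : Finset (Fin n), 0 ≤ ∑ ε : S, ∏ i ∈ A, (((ε : Fin n → ℤˣ) * e) i : ℤ) := by
    intro A
    by_cases hA : ∀ ε ∈ S, ∏ i ∈ A, ε i = 1
    · apply Finset.sum_nonneg
      intro ε _
      have h3 : ∏ i ∈ A, ((ε : Fin n → ℤˣ) * e) i = 1 := by
        simp only [Pi.mul_apply, Finset.prod_mul_distrib]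
        rw [hA ε ε.2, h A hA, one_mul]
      have h4 : ∏ i ∈ A, (((ε : Fin n → ℤˣ) * e) i : ℤ) = 1 := by
        have := congrArg (fun u : ℤˣ => (u : ℤ)) h3
        simpa using this
      rw [h4]; norm_num
    · push Not at hA
      obtain ⟨δ, hδ, hδ1⟩ := hA
      have hδ2 : ∏ i ∈ A, (δ i : ℤ) = -1 := by
        rcases Int.units_eq_one_or (∏ i ∈ A, δ i) with h3 | h3
        · exact absurd h3 hδ1
        · have := congrArg (fun u : ℤˣ => (u : ℤ)) h3
          simpa using this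
      have h5 : ∑ ε : S, ∏ i ∈ A, (((ε : Fin n → ℤˣ) * e) i : ℤ) =
          ∑ ε : S, ∏ i ∈ A, ((((⟨δ, hδ⟩ * ε : S) : Fin n → ℤˣ) * e) i : ℤ) :=
        (Equiv.sum_comp (Equiv.mulLeft (⟨δ, hδ⟩ : S))
          (fun ε : S => ∏ i ∈ A, (((ε : Fin n → ℤˣ) * e) i : ℤ))).symm
      have h6 : ∀ ε : S, ∏ i ∈ A, ((((⟨δ, hδ⟩ * ε : S) : Fin n → ℤˣ) * e) i : ℤ) =
          -∏ i ∈ A, (((ε : Fin n → ℤˣ) * e) i : ℤ) := by
        intro ε
        have h7 : ∏ i ∈ A, ((((⟨δ, hδ⟩ * ε : S) : Fin n → ℤˣ) * e) i : ℤ) =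
            (∏ i ∈ A, (δ i : ℤ)) * ∏ i ∈ A, (((ε : Fin n → ℤˣ) * e) i : ℤ) := by
          rw [← Finset.prod_mul_distrib]
          apply Finset.prod_congr rfl
          intro i _
          simp [mul_assoc]
        rw [h7, hδ2]; ring
      rw [Finset.sum_congr rfl (fun ε _ => h6 ε), Finset.sum_neg_distrib] at h5
      linarith
  have h3 := (Finset.sum_eq_zero_iff_of_nonneg (fun A _ => h2 A)).1 h1 ∅ (Finset.mem_univ _)
  simp at h3

/-- the exponent vector of a squarefree monomial -/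
noncomputable def chi (A : Finset (Fin n)) : Fin n →₀ ℕ :=
  Finsupp.equivFunOnFinite.symm (fun i => if i ∈ A then 1 else 0)

theorem chi_apply (A : Finset (Fin n)) (i : Fin n) : chi A i = if i ∈ A then 1 else 0 := rfl

theorem chi_le (A : Finset (Fin n)) (i : Fin n) : chi A i ≤ 1 := by
  rw [chi_apply]; split_ifs <;> simp

theorem chi_mem (A : Finset (Fin n)) (S : Subgroup (Fin n → ℤˣ)) :
    chi A ∈ adm S ↔ ∀ ε ∈ S, ∏ i ∈ A, ε i = 1 := by
  classical
  have h : ∀ ε : Fin n → ℤˣ, ∏ i, ε i ^ (chi A i) = ∏ i ∈ A, ε i := by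
    intro ε
    rw [← Finset.prod_subset (Finset.subset_univ A)]
    · apply Finset.prod_congr rfl
      intro i hi
      rw [chi_apply, if_pos hi, pow_one]
    · intro i _ hi
      rw [chi_apply, if_neg hi, pow_zero]
  simp only [adm, Set.mem_ofPred_eq, h]

/-- `S ≤ K` as soon as all squarefree monomials invariant under `K` are invariant under `S`. -/
theorem le_of_chi {S K : Subgroup (Fin n → ℤˣ)}
    (h : ∀ A : Finset (Fin n), chi A ∈ adm K → chi A ∈ adm S) : S ≤ K := by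
  intro e he
  apply mem_of_dual
  intro A hA
  exact (chi_mem A S).1 (h A ((chi_mem A K).2 hA)) e he

/-- the multiplicities -/
noncomputable def N (S : Subgroup (Fin n → ℤˣ)) (ℓ : Fin n) (k : ℕ) : ℕ := Nat.card (T (adm S) ℓ k)

theorem N_pos {S : Subgroup (Fin n → ℤˣ)} {ℓ : Fin n} {k : ℕ} {α : Fin n →₀ ℕ}
    (h : α ∈ T (adm S) ℓ k) : N S ℓ k ≠ 0 := by
  have : Finite (T (adm S) ℓ k) := finite_T _ _ _
  have : Nonempty (T (adm S) ℓ k) := ⟨⟨α, h⟩⟩
  exact Nat.card_pos.ne'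

theorem exists_of_N {S : Subgroup (Fin n → ℤˣ)} {ℓ : Fin n} {k : ℕ}
    (h : N S ℓ k ≠ 0) : ∃ α, α ∈ T (adm S) ℓ k := by
  by_contra hcon
  apply h
  push Not at hcon
  have : IsEmpty (T (adm S) ℓ k) := ⟨fun α => hcon _ α.2⟩
  simp [N]

theorem T_eq {S K : Subgroup (Fin n → ℤˣ)} {ℓ : Fin n} {k : ℕ}
    (h : T (adm K) ℓ k ⊆ T (adm S) ℓ k) (h2 : N K ℓ k = N S ℓ k) :
    T (adm K) ℓ k = T (adm S) ℓ k := by
  apply Set.eq_of_subset_of_ncard_le h _ (finite_T _ _ _)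
  rw [← Nat.card_coe_set_eq, ← Nat.card_coe_set_eq]
  exact h2.ge

theorem two_mem (S : Subgroup (Fin n → ℤˣ)) (i : Fin n) : Finsupp.single i 2 ∈ adm S := by
  have h := (adm_add S 0 i).2 (by intro ε _; simp)
  simpa using h

theorem N_two {S : Subgroup (Fin n → ℤˣ)} (hn : 2 ≤ n) (ℓ : Fin n) : N S ℓ 2 ≠ 0 := by
  have : ∃ i : Fin n, i ≠ ℓ := by
    have : Nontrivial (Fin n) := Fin.nontrivial_iff_two_le.2 hn
    exact exists_ne ℓ
  obtain ⟨i, hi⟩ := this
  apply N_pos (α := Finsupp.single i 2)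
  refine ⟨by simp, two_mem S i, by simp [hi]⟩

theorem deg_one {α : Fin n →₀ ℕ} (h : α.degree = 1) : ∃ i, α = Finsupp.single i 1 := by
  classical
  have hne : α ≠ 0 := by rintro rfl; simp at h
  obtain ⟨i, hi⟩ := Finsupp.ne_iff.1 hne
  refine ⟨i, ?_⟩
  have hle : Finsupp.single i 1 ≤ α := by
    rw [Finsupp.single_le_iff]
    have : α i ≠ 0 := by simpa using hi
    omega
  obtain ⟨β, rfl⟩ := exists_add_of_le hle
  rw [map_add] at h
  have h2 : β.degree = 0 := by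
    simp at h; simpa using h
  rw [Finsupp.degree_eq_zero_iff] at h2
  rw [h2, add_zero]

theorem deg_two {α : Fin n →₀ ℕ} (h : α.degree = 2) :
    ∃ i j, α = Finsupp.single i 1 + Finsupp.single j 1 := by
  classical
  have hne : α ≠ 0 := by rintro rfl; simp at h
  obtain ⟨i, hi⟩ := Finsupp.ne_iff.1 hne
  have hle : Finsupp.single i 1 ≤ α := by
    rw [Finsupp.single_le_iff]
    have : α i ≠ 0 := by simpa using hi
    omega
  obtain ⟨β, rfl⟩ := exists_add_of_le hle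
  rw [map_add] at h
  have h2 : β.degree = 1 := by
    rw [Finsupp.degree_single] at h; omega
  obtain ⟨j, rfl⟩ := deg_one h2
  exact ⟨i, j, rfl⟩

end Pool.Agent.H74.ST
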